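import Pool.Agent.H62P.Pkg
import Pool.Agent.H72N.RichC
import Pool.Agent.H88C.Main
import Pool.Agent.TFA.Idx

/-!
The 2-connected step: the data of a longest cycle `c` and the components `comp G [c] y`, `y ∈ R`,
which are not optional, each with a package.
-/

set_option autoImplicit false

namespace Pool.Agent.P23M

open List Pool.Agent.TF82 Pool.Agent.TFC Pool.Agent.TFB Pool.Agent.EG31 Pool.Agent.H18C
  Pool.Agent.H62P Pool.Agent.H72N

universe u

set_option linter.unusedSectionVars false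
set_option linter.unusedVariables false

variable {V : Type u} [DecidableEq V]

/-- a longest cycle with the components of the rest, their optional sets `S' y`, surpluses `bb y`,
cover numbers `m y` and members `I y` -/
structure Ctx [Fintype V] (G : SimpleGraph V) [DecidableRel G.Adj] (W : Finset V) (c : List V)
    (R : Finset V) (S' : V → Finset V) (bb m : V → ℕ) (I : V → Finset V) : Prop where
  hM : IsMax G 1 [c]
  h1 : Conn1 G Finset.univ
  h2 : Conn2 G Finset.univ
  hR : R ⊆ unc [c]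
  cov : ∀ x ∈ unc [c], x ∉ W → ∃ y ∈ R, x ∈ comp G [c] y
  dis : ∀ y ∈ R, ∀ y' ∈ R, y ≠ y' → Disjoint (comp G [c] y) (comp G [c] y')
  hK : ∀ y ∈ R, Kb G (comp G [c] y) (S' y) (bb y)
  hP : ∀ y ∈ R, Pkg G (comp G [c] y) (S' y) (bb y) (m y) (I y)
  hm : ∀ y ∈ R, 1 ≤ m y
  hb : ∀ y ∈ R, ∑ z ∈ R.erase y, m z + (W ∩ c.toFinset).card ≤ bb y
  hS : ∀ y ∈ R, W ∩ comp G [c] y ⊆ S' y
  hub : ∀ y ∈ R, ∀ u ∈ c, ∀ v, Good G (comp G [c] y) (S' y) v → G.Adj u v →
    ∃ x ∈ comp G [c] y, x ≠ v ∧ G.Adj u x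

/-- the conclusion of the count -/
def Free [Fintype V] (G : SimpleGraph V) [DecidableRel G.Adj] (W : Finset V) (c : List V)
    (R : Finset V) (S' : V → Finset V) (I : V → Finset V) : Prop :=
  ∃ p ∈ c, p ∉ W ∧
    (∀ y ∈ R, ∀ x ∈ comp G [c] y, ∀ x' ∈ comp G [c] y, G.Adj p x → G.Adj p x' →
      Near G (comp G [c] y) (S' y) x x') ∧
    ∑ y ∈ R, (∑ v ∈ c.toFinset, ((I y).filter (fun v' => G.Adj v v')).card +
      min 1 ((comp G [c] y).filter (fun x => G.Adj p x)).card) ≤
    (c.toFinset.filter (fun z => z ≠ p ∧ ¬ G.Adj p z)).card + R.card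

end Pool.Agent.P23M
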