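import Pool.Agent.P23M.Ctx
import Pool.Agent.H35P.Cyc
import Pool.Agent.H37F.Gam
import Pool.Agent.H37F.M1

/-!
The 2-connected step: from the count to the package.
-/

set_option autoImplicit false

namespace Pool.Agent.P23M

open List Pool.Agent.TF82 Pool.Agent.TFC Pool.Agent.TFB Pool.Agent.EG31 Pool.Agent.H18C
  Pool.Agent.H62P Pool.Agent.H72N Pool.Agent.H37F

universe u

set_option linter.unusedSectionVars false
set_option linter.unusedVariables false

variable {V : Type u} [DecidableEq V]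

theorem flat_one {c : List V} : ([c] : List (List V)).flatten = c := by simp

/-- degree of a vertex of a component: inside and on the cycle -/
theorem deg_in [Fintype V] {G : SimpleGraph V} [DecidableRel G.Adj] {c : List V}
    {y v : V} (hv : v ∈ comp G [c] y) :
    dU G Finset.univ v = dU G (comp G [c] y) v + dU G c.toFinset v := by
  unfold dU
  rw [← Finset.card_union_of_disjoint]
  · congr 1
    ext w
    rw [Finset.mem_union, Finset.mem_filter, Finset.mem_filter, Finset.mem_filter,
      List.mem_toFinset]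
    constructor
    · rintro ⟨-, hw⟩
      by_cases hwc : w ∈ c
      · exact Or.inr ⟨hwc, hw⟩
      · left
        refine ⟨mem_comp.2 ⟨mem_unc.2 (by rw [flat_one]; exact hwc), ?_⟩, hw⟩
        have h1 := mem_comp.1 hv
        exact h1.2.tail ⟨h1.1, mem_unc.2 (by rw [flat_one]; exact hwc), hw⟩
    · rintro (⟨-, hw⟩ | ⟨-, hw⟩)
      · exact ⟨Finset.mem_univ _, hw⟩
      · exact ⟨Finset.mem_univ _, hw⟩
  · rw [Finset.disjoint_left]
    intro w hw hw'
    have h1 := mem_unc.1 (mem_comp.1 (Finset.mem_filter.1 hw).1).1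
    rw [flat_one] at h1
    exact h1 (List.mem_toFinset.1 (Finset.mem_filter.1 hw').1)

theorem sum_swap {G : SimpleGraph V} [DecidableRel G.Adj] (A B : Finset V) :
    ∑ v ∈ A, dU G B v = ∑ u ∈ B, (A.filter (fun v => G.Adj u v)).card := by
  unfold dU
  simp only [Finset.card_filter]
  rw [Finset.sum_comm]
  refine Finset.sum_congr rfl fun u _ => Finset.sum_congr rfl fun v _ => ?_
  simp only [G.adj_comm]

theorem pkg_of_free [Fintype V] {G : SimpleGraph V} [DecidableRel G.Adj] {W : Finset V}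
    {c : List V} {R R₁ : Finset V} {S' : V → Finset V} {bb m : V → ℕ} {I : V → Finset V}
    (h : Ctx G W c R S' bb m I) (hf : Free G W c R S' I) (hR1 : Reps G [c] R₁) (hRR : R ⊆ R₁)
    (hW0 : ∀ y ∈ R₁, y ∉ R → comp G [c] y ⊆ W) (hI0 : ∀ y ∈ R₁, y ∉ R → I y = ∅)
    (hS0 : ∀ y ∈ R₁, W ∩ comp G [c] y ⊆ S' y) {b f : ℕ}
    (hbb : ∀ y ∈ R, b + ∑ z ∈ R.erase y, m z + (W \ comp G [c] y).card ≤ bb y)
    (hne : R.Nonempty) (hfR : f ≤ 1 + ∑ y ∈ R, m y) : ∃ J, Pkg G Finset.univ W b f J := by
  obtain ⟨p, hpc, hpW, hpN, hcnt⟩ := hf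
  have hcyc : CycL G c := isMax_fam h.hM
  have hIg : ∀ y ∈ R, ∀ v ∈ I y, Good G (comp G [c] y) (S' y) v := fun y hy => (h.hP y hy).good
  have hIc : ∀ y ∈ R, I y ⊆ comp G [c] y := fun y hy v hv => (hIg y hy v hv).mem
  have hIc1 : ∀ y ∈ R₁, I y ⊆ comp G [c] y := by
    intro y hy
    by_cases hyR : y ∈ R
    · exact hIc y hyR
    · rw [hI0 y hy hyR]; simp
  have hnc : ∀ y, ∀ z ∈ comp G [c] y, z ∉ c := by
    intro y z hz
    have := mem_unc.1 (mem_comp.1 hz).1
    rwa [flat_one] at this
  have hpn : ∀ y ∈ R, ∀ v ∈ I y, ¬ G.Adj p v := by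
    intro y hy v hv hadj
    have hg := hIg y hy v hv
    obtain ⟨x, hx, hxv, hpx⟩ := h.hub y hy p hpc v hg hadj
    exact hxv (hg.near_eq (hpN y hy v hg.mem x hx hadj hpx)).symm
  have hWI : ∀ y ∈ R, ∀ v ∈ I y, v ∉ W := fun y hy v hv hw =>
    (hIg y hy v hv).nS (h.hS y hy (Finset.mem_inter.2 ⟨hw, hIc y hy hv⟩))
  have hsumR : ∀ g : V → ℕ, (∀ y ∈ R₁, y ∉ R → g y = 0) → ∑ y ∈ R₁, g y = ∑ y ∈ R, g y := by
    intro g hg
    exact (Finset.sum_subset hRR (fun y hy hyR => hg y hy hyR)).symm
  obtain ⟨I₀, hI₀⟩ : ∃ I₀, I₀ = insert p (R₁.biUnion I) := ⟨_, rfl⟩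
  have hpU : p ∉ R₁.biUnion I := by
    intro hp
    obtain ⟨y, hy, hp⟩ := Finset.mem_biUnion.1 hp
    exact hnc y p (hIc1 y hy hp) hpc
  have hmemI : ∀ v ∈ R₁.biUnion I, ∃ y ∈ R, v ∈ I y := by
    intro v hv
    obtain ⟨y, hy, hv⟩ := Finset.mem_biUnion.1 hv
    by_cases hyR : y ∈ R
    · exact ⟨y, hyR, hv⟩
    · rw [hI0 y hy hyR] at hv; simp at hv
  have hcardI : ∀ y ∈ R, (I y).card = m y := fun y hy => (h.hP y hy).card
  have hcI₀ : I₀.card = 1 + ∑ y ∈ R, m y := by
    rw [hI₀, Finset.card_insert_of_notMem hpU, hR1.cardI hIc1, hsumR _ (fun y hy hyR => by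
      rw [hI0 y hy hyR]; rfl), Finset.sum_congr rfl hcardI]
    exact Nat.add_comm _ _
  have hindI : G.IsIndepSet ((R₁.biUnion I : Finset V) : Set V) := by
    refine hR1.indep hIc1 ?_
    intro y hy
    by_cases hyR : y ∈ R
    · exact (h.hP y hyR).ind
    · rw [hI0 y hy hyR]; simp [SimpleGraph.IsIndepSet]
  have hind : G.IsIndepSet ((I₀ : Finset V) : Set V) := by
    rw [hI₀]
    intro a ha d hd had
    rw [Finset.mem_coe, Finset.mem_insert] at ha hd
    rcases ha with rfl | ha <;> rcases hd with rfl | hd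
    · exact absurd rfl had
    · obtain ⟨y, hy, h3⟩ := hmemI d hd
      exact hpn y hy d h3
    · obtain ⟨y, hy, h3⟩ := hmemI a ha
      exact fun h' => hpn y hy a h3 h'.symm
    · exact hindI ha hd had
  -- the sum
  have hsum : ∑ v ∈ I₀, dU G Finset.univ v + 1 ≤ (Finset.univ : Finset V).card := by
    rw [hI₀, Finset.sum_insert hpU, hR1.sum hIc1, hR1.card_univ h.hM.fam, hR1.deg p, flat_one]
    have e1 : ∀ y ∈ R₁, ∑ v ∈ I y, dU G Finset.univ v =
        ∑ v ∈ I y, dU G (comp G [c] y) v +
          ∑ u ∈ c.toFinset, ((I y).filter (fun v => G.Adj u v)).card := by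
      intro y hy
      rw [← sum_swap, ← Finset.sum_add_distrib]
      exact Finset.sum_congr rfl fun v hv => deg_in (hIc1 y hy hv)
    rw [Finset.sum_congr rfl e1]
    have e2 : ∀ y ∈ R₁, dU G (comp G [c] y) p + (∑ v ∈ I y, dU G (comp G [c] y) v +
        ∑ u ∈ c.toFinset, ((I y).filter (fun v => G.Adj u v)).card) +
        (if y ∈ R then 1 else 0) ≤
        (comp G [c] y).card + (if y ∈ R then (∑ v ∈ c.toFinset, ((I y).filter
          (fun v' => G.Adj v v')).card + min 1 ((comp G [c] y).filter (fun x => G.Adj p x)).card)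
          else 0) := by
      intro y hy
      by_cases hyR : y ∈ R
      · rw [if_pos hyR, if_pos hyR]
        have hN := (h.hP y hyR).near ((comp G [c] y).filter (fun x => G.Adj p x))
          (Finset.filter_subset _ _) (by
            intro x hx x' hx'
            rw [Finset.mem_filter] at hx hx'
            exact hpN y hyR x hx.1 x' hx'.1 hx.2 hx'.2)
        have hyy : y ∈ comp G [c] y := mem_comp.2 ⟨h.hR hyR, Relation.ReflTransGen.refl⟩
        have hS := (h.hP y hyR).sum hyy
        have hd : dU G (comp G [c] y) p = ((comp G [c] y).filter (fun x => G.Adj p x)).card := rfl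
        rcases Nat.eq_zero_or_pos ((comp G [c] y).filter (fun x => G.Adj p x)).card with h0 | h0
        · rw [hd, h0]
          simp only [Nat.min_zero]
          omega
        · rw [hd, Nat.min_eq_left h0]
          omega
      · rw [if_neg hyR, if_neg hyR, hI0 y hy hyR]
        simp only [Finset.sum_empty, Finset.filter_empty, Finset.card_empty,
          Finset.sum_const_zero, add_zero]
        exact Finset.card_filter_le _ _
    have e3 := Finset.sum_le_sum e2
    rw [Finset.sum_add_distrib, Finset.sum_add_distrib, Finset.sum_add_distrib,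
      Finset.sum_add_distrib] at e3
    have e4 : ∑ y ∈ R₁, (if y ∈ R then 1 else 0) = R.card := by
      rw [Finset.sum_ite_mem, Finset.inter_eq_right.2 hRR, Finset.card_eq_sum_ones]
    have e5 : ∑ y ∈ R₁, (if y ∈ R then (∑ v ∈ c.toFinset, ((I y).filter
          (fun v' => G.Adj v v')).card + min 1 ((comp G [c] y).filter (fun x => G.Adj p x)).card)
          else 0) = ∑ y ∈ R, (∑ v ∈ c.toFinset, ((I y).filter
          (fun v' => G.Adj v v')).card + min 1 ((comp G [c] y).filter
            (fun x => G.Adj p x)).card) := by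
      rw [Finset.sum_ite_mem, Finset.inter_eq_right.2 hRR]
    rw [e4, e5] at e3
    have e6 : dU G c.toFinset p + (c.toFinset.filter (fun z => z ≠ p ∧ ¬ G.Adj p z)).card + 1 =
        c.length := by
      have h3 : c.toFinset.card = c.length := List.toFinset_card_of_nodup hcyc.1
      rw [← h3]
      have h4 := Finset.card_filter_add_card_filter_not (s := c.toFinset)
        (fun z => G.Adj p z)
      have h5 : (c.toFinset.filter (fun z => ¬ G.Adj p z)) =
          insert p (c.toFinset.filter (fun z => z ≠ p ∧ ¬ G.Adj p z)) := by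
        ext z
        simp only [Finset.mem_filter, Finset.mem_insert, List.mem_toFinset]
        constructor
        · rintro ⟨h6, h7⟩
          by_cases hz : z = p
          · exact Or.inl hz
          · exact Or.inr ⟨h6, hz, h7⟩
        · rintro (rfl | ⟨h6, h7, h8⟩)
          · exact ⟨hpc, G.loopless.irrefl z⟩
          · exact ⟨h6, h8⟩
      rw [h5, Finset.card_insert_of_notMem (by simp)] at h4
      unfold dU
      omega
    rw [Finset.sum_add_distrib]
    omega
  -- a subset of the right size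
  obtain ⟨J, hJI, hJc⟩ := Finset.exists_subset_card_eq (s := I₀) (n := f) (by omega)
  have hJs : ∑ v ∈ J, dU G Finset.univ v + 1 ≤ (Finset.univ : Finset V).card :=
    (Nat.succ_le_succ (Finset.sum_le_sum_of_subset hJI)).trans hsum
  -- paths
  obtain ⟨y₀, hy₀⟩ := hne
  have hgam := gam_step h.hM h.h2 (K := comp G [c] y₀) (b := b) (f := f)
    (fun x hx => (mem_comp.1 hx).1) (h.hP y₀ hy₀) (by
      have h3 := hbb y₀ hy₀
      have h4 := Finset.add_sum_erase R m hy₀
      omega)
  have hlev : Pool.Agent.H35P.Lev G Finset.univ W b c R₁ (fun y => comp G [c] y) S' I bb := by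
    refine ⟨⟨hcyc, fun w _ => Finset.mem_univ w, fun y _ => Finset.subset_univ _,
      fun y _ z hz => hnc y z hz, hR1.dis, ?_, ?_, ?_⟩, h.h2, hIc1, ?_, hS0, ?_, ?_, ?_⟩
    · intro y hy a ha w _ haw
      by_cases hwc : w ∈ c
      · exact Or.inr hwc
      · left
        have h3 := mem_comp.1 ha
        exact mem_comp.2 ⟨mem_unc.2 (by rw [flat_one]; exact hwc),
          h3.2.tail ⟨h3.1, mem_unc.2 (by rw [flat_one]; exact hwc), haw⟩⟩
    · intro y hy
      exact comp_conn1 G [c] y
    · intro x _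
      by_cases hxc : x ∈ c
      · exact Or.inl hxc
      · exact Or.inr (hR1.cov x (mem_unc.2 (by rw [flat_one]; exact hxc)))
    · intro y hy v hv w hw hvw
      by_cases hyR : y ∈ R
      · obtain ⟨x, hx, hxv, hwx⟩ := h.hub y hyR w hw v (hIg y hyR v hv) hvw.symm
        exact ⟨x, hx, hxv, hwx.symm⟩
      · rw [hI0 y hy hyR] at hv; simp at hv
    · intro y hy hyne
      have hyR : y ∈ R := by
        by_contra hyR
        rw [hI0 y hy hyR] at hyne
        simp at hyne
      have h3 := hbb y hyR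
      have h4 : ∑ j ∈ R₁.erase y, (I j).card = ∑ j ∈ R.erase y, m j := by
        rw [← Finset.sum_subset (Finset.erase_subset_erase y hRR) (fun j hj hjR => by
          rw [Finset.mem_erase] at hj
          have : j ∉ R := fun h5 => hjR (Finset.mem_erase.2 ⟨hj.1, h5⟩)
          rw [hI0 j hj.2 this]; rfl)]
        exact Finset.sum_congr rfl fun j hj => hcardI j (Finset.mem_of_mem_erase hj)
      rw [h4]
      exact h3
    · intro y hy
      by_cases hyR : y ∈ R
      · exact (h.hP y hyR).p1
      · intro M hM hMne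
        rw [hI0 y hy hyR, Finset.subset_empty] at hM
        rw [hM] at hMne
        simp at hMne
    · intro y hy
      by_cases hyR : y ∈ R
      · exact (h.hP y hyR).p2
      · intro M hM M' hM' hMne
        rw [hI0 y hy hyR, Finset.subset_empty] at hM
        rw [hM] at hMne
        simp at hMne
  have hJ' : J ⊆ insert p (R₁.biUnion I) := hI₀ ▸ hJI
  have hgood : ∀ v ∈ J, Good G Finset.univ W v := by
    intro v hv
    refine ⟨Finset.mem_univ _, ?_, h.h2 v (Finset.mem_univ _)⟩
    rcases Finset.mem_insert.1 (hJ' hv) with rfl | h3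
    · exact hpW
    · obtain ⟨y, hy, h4⟩ := hmemI v h3
      exact hWI y hy v h4
  refine ⟨J, hgood, fun a ha d hd => hind (hJI ha) (hJI hd), hJc, ?_, ?_, ?_, ?_⟩
  · intro N hN hnear
    by_cases hN2 : N.card ≤ 1
    · omega
    · exfalso
      push Not at hN2
      obtain ⟨y₁, hy₁, y₂, hy₂, hy12⟩ := Finset.one_lt_card.1 hN2
      exact near_two h.h2 (Finset.mem_univ p) hpW (hN hy₁) (hN hy₂) hy12 (hnear y₁ hy₁ y₂ hy₂)
  · exact hlev.cyc_p1 (f := f) hpc (fun x _ x' _ hxx => hgam.2 x x' hxx) hJ' hJc.le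
  · exact hlev.cyc_p2 (f := f) hpc hgam.1 hJ' hJc.le
  · exact co_step h.hM h.h2 W (K := comp G [c] y₀) (fun x hx => (mem_comp.1 hx).1)
      (h.hP y₀ hy₀) (by
        have h3 := hbb y₀ hy₀
        have h4 := Finset.add_sum_erase R m hy₀
        omega)

end Pool.Agent.P23M
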