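import Pool.Agent.P23M.Ctx
import Pool.Agent.HW43.Dat
import Pool.Agent.H55L.TwoLinked

/-! The count on the longest cycle: from the context to a free vertex. -/

set_option autoImplicit false

namespace Pool.Agent.P23M

open List Pool.Agent.TF82 Pool.Agent.TFC Pool.Agent.TFB Pool.Agent.TFN Pool.Agent.TFG
  Pool.Agent.EG31 Pool.Agent.H18C Pool.Agent.H62P Pool.Agent.H72N

universe u

set_option linter.unusedSectionVars false
set_option linter.unusedVariables false

variable {V : Type u} [Fintype V] [DecidableEq V]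

variable {G : SimpleGraph V} [DecidableRel G.Adj] {W : Finset V} {c : List V} {R : Finset V}
  {S' : V → Finset V} {bb m : V → ℕ} {I : V → Finset V}

namespace Ctx

theorem fl (c : List V) : ([c] : List (List V)).flatten = c := by simp

theorem cwg (h : Ctx G W c R S' bb m I) {y : V} (hy : y ∈ R) :
    CWg G (comp G [c] y) (S' y) (bb y) := by
  intro J hJ hind v hv hc
  exact (h.hK y hy).sur J hJ hind v hv
    ⟨(Finset.mem_sdiff.1 (hJ hv)).1, (Finset.mem_sdiff.1 (hJ hv)).2, hc⟩

theorem sum_ge (h : Ctx G W c R S' bb m I) {y : V} (hy : y ∈ R) :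
    R.card ≤ ∑ z ∈ R.erase y, m z + 1 := by
  have h1 : (R.erase y).card ≤ ∑ z ∈ R.erase y, m z := by
    rw [Finset.card_eq_sum_ones]
    exact Finset.sum_le_sum (fun z hz => h.hm z (Finset.mem_of_mem_erase hz))
  rw [Finset.card_erase_of_mem hy] at h1
  omega

/-- two vertices of a component which are not near give a link -/
theorem link (h : Ctx G W c R S' bb m I) {y : V} (hy : y ∈ R) {s t x x' : V}
    (hx : x ∈ comp G [c] y) (hx' : x' ∈ comp G [c] y) (hsx : G.Adj s x) (htx : G.Adj t x')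
    (hn : ¬ Near G (comp G [c] y) (S' y) x x') : Link G [c] y (bb y + 3) s t := by
  obtain ⟨Q, q1, q2, q3, q4⟩ := near_linkg (h.hK y hy).con (h.hK y hy).sub (h.cwg hy) hx hx' hn
  exact ⟨Q, x, x', q1, q2, q3, q4, hsx, htx⟩

theorem flF (h : Ctx G W c R S' bb m I) : ([c] : List (List V)).flatten.toFinset = c.toFinset := by
  rw [fl]

theorem lin (h : Ctx G W c R S' bb m I) {y : V} (hy : y ∈ R) :
    ∃ u ∈ c, ∃ u' ∈ c, u ≠ u' ∧ u ∈ att G [c] y ∧ u' ∈ att G [c] y ∧
      Link G [c] y (bb y + 3) u u' := by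
  have hc : CycL G c := h.hM.fam.cyc c (by simp)
  have hcn : c.Nodup := hc.1
  obtain ⟨v, hv⟩ : (I y).Nonempty := Finset.card_pos.1 (by
    rw [(h.hP y hy).card]; exact h.hm y hy)
  have hg := (h.hP y hy).good v hv
  have hdeg := (h.hK y hy).sur {v} (by
    rw [Finset.singleton_subset_iff, Finset.mem_sdiff]
    exact ⟨hg.mem, hg.nS⟩) (by simp) v (by simp) hg
  have hdc : dU G (comp G [c] y) v ≤ (comp G [c] y).card := Finset.card_filter_le _ _
  rw [Finset.card_singleton] at hdeg
  obtain ⟨a, ha, a', ha', u, hu, u', hu', hne, h1, h2, h3⟩ := H55L.two_linked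
    (G := G) (U := Finset.univ) (C := c.toFinset) (Z := comp G [c] y) (S := S' y) h.h2
    (Finset.subset_univ _) (by
      rw [List.toFinset_card_of_nodup hcn]
      have := hc.2.1
      omega) (Finset.subset_univ _) (by
      intro z hz hzc
      exact mem_unc.1 (mem_comp.1 hz).1 (by rw [fl]; exact List.mem_toFinset.1 hzc))
    (h.hK y hy).con (by
      intro w hw z _ hwz
      by_cases hzc : z ∈ c
      · exact Or.inr (List.mem_toFinset.2 hzc)
      · have hzU : z ∈ unc [c] := mem_unc.2 (by rw [fl]; exact hzc)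
        exact Or.inl (mem_comp.2 ⟨hzU, Relation.ReflTransGen.tail (mem_comp.1 hw).2
          ⟨(mem_comp.1 hw).1, hzU, hwz⟩⟩)) (by omega) hg
  rw [List.mem_toFinset] at hu hu'
  exact ⟨u, hu, u', hu', hne, mem_att.2 ⟨by rw [fl]; exact hu, a, (mem_comp.1 ha).2, h1⟩,
    mem_att.2 ⟨by rw [fl]; exact hu', a', (mem_comp.1 ha').2, h2⟩, h.link hy ha ha' h1 h2 h3⟩

/-- **the count on the longest cycle** -/
theorem free (h : Ctx G W c R S' bb m I) (hne : R.Nonempty) : Free G W c R S' I := by
  classical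
  have hc : CycL G c := h.hM.fam.cyc c (by simp)
  have hcn : c.Nodup := hc.1
  have hF1 : ([c] : List (List V)).length = 1 := rfl
  have hM : IsMax G ([c] : List (List V)).length [c] := h.hM
  have hatt : ∀ {y s : V}, y ∈ R → s ∈ att G [c] y → ∃ q ∈ comp G [c] y, G.Adj s q := by
    intro y s hy hs
    obtain ⟨-, q, hq, hsq⟩ := mem_att.1 hs
    exact ⟨q, mem_comp.2 ⟨reach_unc (h.hR hy) hq, hq⟩, hsq⟩
  set str : V → V → Prop := fun y v => v ∈ c ∧ ∃ x ∈ comp G [c] y, ∃ x' ∈ comp G [c] y,
    G.Adj v x ∧ G.Adj v x' ∧ ¬ Near G (comp G [c] y) (S' y) x x' with hstr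
  have hno : ∀ y ∈ R, ∀ y' ∈ R, y ≠ y' → y' ∉ comp G [c] y := by
    intro y hy y' hy' hyy hin
    exact (Finset.disjoint_left.1 (h.dis y hy y' hy' hyy) hin)
      (mem_comp.2 ⟨h.hR hy', Relation.ReflTransGen.refl⟩)
  set dt := HW43.Dt.dat G [c] hM hF1 W R (fun y hy => h.hR hy) hno
    (fun y v => v ∈ att G [c] y) str (fun y v => ((I y).filter (fun u => G.Adj v u)).card) m
    (by
      obtain ⟨y, hy⟩ := hne
      obtain ⟨u, hu, u', hu', huu, -, -, hl⟩ := h.lin hy
      have h1 := HW43.Dt.link_lt hM hF1 (by rw [fl]; exact hu) (by rw [fl]; exact hu') huu hl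
      have h2 := h.sum_ge hy
      have h3 := h.hb y hy
      rw [fl] at h1
      rw [fl, List.toFinset_card_of_nodup hcn]
      omega)
    h.hm
    (fun y hy v hv => by
      rw [← (h.hP y hy).card]
      exact Finset.card_filter_le _ _)
    (fun y hy v hv hn => by
      rw [fl, List.mem_toFinset] at hv
      obtain ⟨u, hu⟩ := Finset.card_pos.1 hn
      rw [Finset.mem_filter] at hu
      have hg := (h.hP y hy).good u hu.1
      obtain ⟨x, hx, hxu, hvx⟩ := h.hub y hy v hv u hg hu.2
      exact ⟨hv, u, hg.mem, x, hx, hu.2, hvx, fun hn => hxu (hg.near_eq hn).symm⟩)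
    (fun y hy v hv hs => by
      obtain ⟨h1, x, hx, -, -, h2, -⟩ := hs
      exact mem_att.2 ⟨by rw [fl]; exact h1, x, (mem_comp.1 hx).2, h2⟩)
    (fun y hy => by
      obtain ⟨u, hu, u', hu', huu, h1, h2, -⟩ := h.lin hy
      exact ⟨u, by rw [fl, List.mem_toFinset]; exact hu, u', by
        rw [fl, List.mem_toFinset]; exact hu', huu, h1, h2⟩)
    (fun y hy v hv w hw hvw hs hA => by
      obtain ⟨h1, x, hx, x', hx', g1, g2, g3⟩ := hs
      obtain ⟨q, hq, hwq⟩ := hatt hy hA
      have h2 := h.sum_ge hy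
      have h3 := h.hb y hy
      rw [fl]
      rcases near_or (h.hK y hy).con hq g3 with h' | h'
      · exact (h.link hy hx hq g1 hwq (fun hn => h' (near_symm hn))).mono (by omega)
      · exact (h.link hy hx' hq g2 hwq (fun hn => h' (near_symm hn))).mono (by omega))
    (fun y hy v hv w hw hvw hn hA => by
      rw [fl, List.mem_toFinset] at hw
      obtain ⟨u, hu, hux⟩ := (h.hP y hy).p1 _ (Finset.filter_subset _ _) (Finset.card_pos.1 hn)
      rw [Finset.mem_filter] at hu
      have hg := (h.hP y hy).good u hu.1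
      obtain ⟨x, hx, hxu, hwx⟩ : ∃ x ∈ comp G [c] y, x ≠ u ∧ G.Adj w x := by
        obtain ⟨q, hq, hwq⟩ := hatt hy hA
        by_cases hqu : q = u
        · exact h.hub y hy w hw u hg (hqu ▸ hwq)
        · exact ⟨q, hq, hqu, hwq⟩
      obtain ⟨Q, q1, q2, q3, q4⟩ := hux x hx hxu
      refine ⟨Q, u, x, q1, q2, q3, ?_, hu.2, hwx⟩
      have h1 := h.hb y hy
      rw [fl]
      omega)
    (fun y hy v hv w hw hvw hn hn' => by
      obtain ⟨u, hu, u', hu', huu, Q, q1, q2, q3, q4⟩ := (h.hP y hy).p2 _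
        (Finset.filter_subset (fun u => G.Adj v u) _) _
        (Finset.filter_subset (fun u => G.Adj w u) _) (Finset.card_pos.1 (by omega))
        (Finset.card_pos.1 hn') (fun hc => by omega)
      rw [Finset.mem_filter] at hu hu'
      refine ⟨Q, u, u', q1, q2, q3, ?_, hu.2, hu'.2⟩
      have h1 := h.hb y hy
      rw [fl]
      omega) with hdt
  obtain ⟨p, hpC, hpW, hps, hsum⟩ := dt.count hne
  have hpc : p ∈ c := by
    have : p ∈ ([c] : List (List V)).flatten.toFinset := hpC
    rw [fl, List.mem_toFinset] at this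
    exact this
  refine ⟨p, hpc, hpW, ?_, ?_⟩
  · intro y hy x hx x' hx' h1 h2
    by_contra hcon
    exact hps y hy ⟨hpc, x, hx, x', hx', h1, h2, hcon⟩
  · have h1 := hsum (fun y => min 1 ((comp G [c] y).filter (fun x => G.Adj p x)).card)
      (fun y hy => by omega) (fun y hy hA => by
        have h0 : (comp G [c] y).filter (fun x => G.Adj p x) = ∅ := by
          rw [Finset.filter_eq_empty_iff]
          intro x hx hpx
          exact hA (mem_att.2 ⟨by rw [fl]; exact hpc, x, (mem_comp.1 hx).2, hpx⟩)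
        rw [h0]
        simp)
    have e1 : ∀ y, dt.T y = ∑ v ∈ c.toFinset, ((I y).filter (fun v' => G.Adj v v')).card := by
      intro y
      have hC : dt.C = c.toFinset := by
        show ([c] : List (List V)).flatten.toFinset = _
        rw [fl]
      unfold H88C.Dat.T
      rw [hC]
      rfl
    have e2 : dt.nn p = (c.toFinset.filter (fun z => z ≠ p ∧ ¬ G.Adj p z)).card := by
      unfold H88C.Dat.nn
      congr 1
      ext z
      rw [Finset.mem_filter, Finset.mem_filter]
      have hC : z ∈ dt.C ↔ z ∈ c.toFinset := by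
        show z ∈ ([c] : List (List V)).flatten.toFinset ↔ _
        rw [fl]
      exact and_congr hC Iff.rfl
    rw [e2] at h1
    simp only [e1] at h1
    exact h1

end Ctx

end Pool.Agent.P23M
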